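import Pool.Agent.H77.EA.Targets3

/-!
# Equivariant Alperin–McKay (MP_657073_al), module XY: group theory
-/

set_option autoImplicit false

namespace Pool.Agent.H74.EA

open AMe

theorem xy_he (ℓ : ℕ) [Fact ℓ.Prime] (A : Type) [Group A] [Finite A] (h : Hypo ℓ A) :
    ∃ (P : Subgroup A) (h₀ : A) (n : ℕ), HE ℓ P h₀ n := by
  obtain ⟨P, hPn, hP, hcyc⟩ := h
  have := hPn
  have := hcyc
  obtain ⟨q, hq⟩ := IsCyclic.exists_generator (α := A ⧸ P)
  obtain ⟨a₀, rfl⟩ := QuotientGroup.mk_surjective q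
  obtain ⟨S⟩ : Nonempty (Sylow ℓ (A ⧸ P)) := inferInstance
  let _ : CommGroup (A ⧸ P) := IsCyclic.commGroup
  have hSn : (S : Subgroup (A ⧸ P)).Normal := ⟨fun x hx g => by
    rw [mul_comm g x, mul_assoc, mul_inv_cancel, mul_one]; exact hx⟩
  have hker : IsPGroup ℓ (QuotientGroup.mk' P).ker := by
    rw [QuotientGroup.ker_mk']; exact hP
  have hidx : ((S : Subgroup (A ⧸ P)).comap (QuotientGroup.mk' P)).index =
      (S : Subgroup (A ⧸ P)).index :=
    Subgroup.index_comap_of_surjective _ (QuotientGroup.mk'_surjective P)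
  have hn : ((S : Subgroup (A ⧸ P)).comap (QuotientGroup.mk' P)).Normal := inferInstance
  refine ⟨(S : Subgroup (A ⧸ P)).comap (QuotientGroup.mk' P), a₀,
    ((S : Subgroup (A ⧸ P)).comap (QuotientGroup.mk' P)).index, hn,
    S.isPGroup'.comap_of_ker_isPGroup _ hker, ?_, Subgroup.pow_index_mem _ _, ?_⟩
  · intro a
    have h1 : ((a : A) : A ⧸ P) ∈ Submonoid.powers ((a₀ : A) : A ⧸ P) :=
      mem_powers_iff_mem_zpowers.2 (hq _)
    obtain ⟨c, hc⟩ := h1
    refine ⟨c, a * (a₀ ^ c)⁻¹, ?_, by group⟩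
    rw [Subgroup.mem_comap]
    have : QuotientGroup.mk' P (a * (a₀ ^ c)⁻¹) = 1 := by
      have h2 : ((a₀ : A) : A ⧸ P) ^ c = (a : A ⧸ P) := hc
      rw [QuotientGroup.mk'_apply, QuotientGroup.mk_mul, QuotientGroup.mk_inv,
        QuotientGroup.mk_pow, h2, mul_inv_cancel]
    rw [this]
    exact Subgroup.one_mem _
  · rw [hidx]
    exact S.not_dvd_index

theorem xy_sub (ℓ : ℕ) [Fact ℓ.Prime] (A : Type) [Group A] [Finite A] (h : Hypo ℓ A)
    (S : Subgroup A) : Hypo ℓ S := by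
  obtain ⟨P, hPn, hP, hcyc⟩ := h
  have := hPn
  have := hcyc
  have hn : (P.subgroupOf S).Normal := inferInstance
  refine ⟨P.subgroupOf S, hn, hP.comap_subtype, ?_⟩
  let f : (S ⧸ P.subgroupOf S) →* (A ⧸ P) :=
    QuotientGroup.lift (P.subgroupOf S) ((QuotientGroup.mk' P).comp S.subtype) (by
      intro x hx
      rw [Subgroup.mem_subgroupOf] at hx
      simpa using hx)
  refine isCyclic_of_injective f ?_
  rw [injective_iff_map_eq_one]
  intro x hx
  obtain ⟨s, rfl⟩ := QuotientGroup.mk_surjective x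
  have h1 : ((s : A) : A ⧸ P) = 1 := hx
  rw [QuotientGroup.eq_one_iff] at h1 ⊢
  rw [Subgroup.mem_subgroupOf]
  exact h1

theorem xy_cyc (ℓ : ℕ) [Fact ℓ.Prime] (A : Type) [Group A] [Finite A] (h : Hypo ℓ A)
    (hl : ¬ ℓ ∣ Nat.card A) : IsCyclic A := by
  obtain ⟨P, hPn, hP, hcyc⟩ := h
  have := hPn
  have := hcyc
  obtain ⟨k, hk⟩ := IsPGroup.iff_card.1 hP
  have hk0 : k = 0 := by
    by_contra hne
    exact hl (((dvd_pow_self ℓ hne).trans hk.symm.dvd).trans (Subgroup.card_subgroup_dvd_card P))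
  have hbot : P = ⊥ := by
    rw [hk0, pow_zero] at hk
    exact Subgroup.card_eq_one.1 hk
  let f : A →* A ⧸ P := QuotientGroup.mk' P
  refine isCyclic_of_injective f ?_
  rw [injective_iff_map_eq_one]
  intro x hx
  have h1 : ((x : A) : A ⧸ P) = 1 := hx
  rw [QuotientGroup.eq_one_iff, hbot] at h1
  exact Subgroup.mem_bot.1 h1

theorem xy : T_XY := fun ℓ _ A _ _ h => ⟨xy_he ℓ A h, xy_sub ℓ A h, xy_cyc ℓ A h⟩

end Pool.Agent.H74.EA
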