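import Pool.Agent.H77.EA.Targets
import Pool.Agent.H87.AQ.Targets

/-!
# Module CL (MP_657073_al): Clifford theory for normal subgroups of prime index, ambient version
-/

open scoped Classical ComplexConjugate

namespace Pool.Agent.H74.EA.CL

open AMc AMe

variable {Γ : Type} [Group Γ]

theorem cj_mul (u v : Γ) (θ : Γ → ℂ) : cj (u * v) θ = cj v (cj u θ) := by
  funext g; simp only [cj]; congr 1; group

theorem ext0_mem {N : Subgroup Γ} {ψ : N → ℂ} {g : Γ} (h : g ∈ N) : ext0 N ψ g = ψ ⟨g, h⟩ :=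
  dif_pos h

theorem ext0_coe {N : Subgroup Γ} {ψ : N → ℂ} (g : N) : ext0 N ψ g = ψ g := by
  rw [ext0_mem g.2]

theorem ext0_not {N : Subgroup Γ} {ψ : N → ℂ} {g : Γ} (h : g ∉ N) : ext0 N ψ g = 0 :=
  dif_neg h

theorem ext0_inj {N : Subgroup Γ} : Function.Injective (ext0 N) := by
  intro ψ ψ' h
  funext g
  have := congrFun h g
  rwa [ext0_coe, ext0_coe] at this

theorem sum_sub [Fintype Γ] (N : Subgroup Γ) (f : Γ → ℂ) (h : ∀ g, g ∉ N → f g = 0) :
    ∑ g, f g = ∑ k : N, f k := by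
  rw [← Finset.sum_filter_of_ne (p := fun g => g ∈ N) (fun g _ hg => by
    by_contra hgN
    exact hg (h g hgN))]
  exact Finset.sum_subtype (Finset.univ.filter (fun g => g ∈ N)) (fun g => by simp) f

/-- the data of the cyclic quotient -/
theorem exists_cy {q : ℕ} (hq : q.Prime) {Q : Type} [CommGroup Q] {s : Γ →* Q}
    {X K : Subgroup Γ} {t : Γ} (h : PI q s X K t) (hKX : K ≤ X)
    (hn : ∀ u ∈ X, ∀ g ∈ K, u * g * u⁻¹ ∈ K) :
    ∃ F : AMq.Cy q X K, (∀ k : K, (F.io k : Γ) = k) ∧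
      ∀ (c : ℕ) (k : K), ((F.sg ^ c) k : Γ) = t ^ c * k * (t ^ c)⁻¹ := by
  have hgen := h.gen
  choose! c hc using hgen
  have key : ∀ x ∈ X, ∀ a : ℕ, s x = s t ^ a → ((c x : ℕ) : ZMod q) = (a : ZMod q) := by
    intro x hx a ha
    rw [ZMod.natCast_eq_natCast_iff, ← h.ord]
    exact pow_eq_pow_iff_modEq.1 ((hc x hx).symm.trans ha)
  let p : X →* Multiplicative (ZMod q) :=
    { toFun := fun x => Multiplicative.ofAdd ((c x : ℕ) : ZMod q)
      map_one' := by
        rw [← ofAdd_zero]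
        congr 1
        rw [key (1 : X) (1 : X).2 0 (by simp)]
        simp
      map_mul' := fun x y => by
        rw [← ofAdd_add]
        congr 1
        rw [key (x * y : X) (x * y : X).2 (c x + c y) (by
          rw [Subgroup.coe_mul, map_mul, pow_add, ← hc x x.2, ← hc y y.2])]
        push_cast
        rfl }
  have hinv : ∀ g ∈ K, t⁻¹ * g * t ∈ K := fun g hg => by
    have := hn t⁻¹ (X.inv_mem h.mem) g hg
    rwa [inv_inv] at this
  let sg : MulAut K :=
    { toFun := fun k => ⟨t * k * t⁻¹, hn t h.mem k k.2⟩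
      invFun := fun k => ⟨t⁻¹ * k * t, hinv k k.2⟩
      left_inv := fun k => by
        apply Subtype.ext
        show t⁻¹ * (t * k * t⁻¹) * t = k
        group
      right_inv := fun k => by
        apply Subtype.ext
        show t * (t⁻¹ * k * t) * t⁻¹ = k
        group
      map_mul' := fun k l => by
        apply Subtype.ext
        show t * (k * l) * t⁻¹ = (t * k * t⁻¹) * (t * l * t⁻¹)
        group }
  have hsg : ∀ k : K, (sg k : Γ) = t * k * t⁻¹ := fun k => rfl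
  refine ⟨{ io := Subgroup.inclusion hKX
            inj := Subgroup.inclusion_injective hKX
            p := p
            ker := ?_
            s := ⟨t, h.mem⟩
            ps := ?_
            sg := sg
            cj := ?_ }, ?_, ?_⟩
  · intro x
    have h1 : p x = 1 ↔ s x = 1 := by
      have : p x = Multiplicative.ofAdd ((c x : ℕ) : ZMod q) := rfl
      rw [this, ofAdd_eq_one, ZMod.natCast_eq_zero_iff, ← h.ord, orderOf_dvd_iff_pow_eq_one,
        ← hc x x.2]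
    rw [h1]
    constructor
    · intro hx
      have hxK : (x : Γ) ∈ K := by
        rw [h.eq, Subgroup.mem_inf, MonoidHom.mem_ker]
        exact ⟨x.2, hx⟩
      exact ⟨⟨x, hxK⟩, rfl⟩
    · rintro ⟨k, rfl⟩
      have hk := (SetLike.ext_iff.1 h.eq (k : Γ)).1 k.2
      rw [Subgroup.mem_inf, MonoidHom.mem_ker] at hk
      exact hk.2
  · show Multiplicative.ofAdd ((c t : ℕ) : ZMod q) = _
    rw [key t h.mem 1 (by rw [pow_one]), Nat.cast_one]
  · intro k
    rfl
  · intro k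
    rfl
  · intro c k
    show ((sg ^ c) k : Γ) = _
    induction c with
    | zero => simp
    | succ c ih =>
      rw [pow_succ', MulAut.mul_apply, hsg, ih, pow_succ']
      group

theorem cl (hP0 : T_P0) (hS1 : T_S1) (hQ1 : AMq.T_Q1) (hQ2 : AMq.T_Q2) (hQ3 : AMq.T_Q3)
    (hQ4 : AMq.T_Q4) : T_CL := by
  intro q hq Γ _ _ Q _ s X K t h
  haveI : Fact q.Prime := ⟨hq⟩
  obtain ⟨hKX, hn, -, hrep, -, -⟩ := hP0 q hq Γ Q s X K t h
  obtain ⟨F, hio, hsg⟩ := exists_cy hq h hKX hn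
  obtain ⟨-, -, -, h14, -, h16, -, -, -, -⟩ := hQ1 q X K F
  have hq2 := hQ2 q X K F
  have hq3 := hQ3 q X K F
  have hq4 := hQ4 q X K F
  have hsg1 : ∀ k : K, (F.sg k : Γ) = t * k * t⁻¹ := fun k => by
    have := hsg 1 k
    rwa [pow_one, pow_one] at this
  have hmemt : ∀ c : ℕ, t ^ c ∈ X := fun c => X.pow_mem h.mem c
  -- supports
  have hsupp : ∀ x ∈ X, ∀ θ ∈ IrrS K, ∀ g, g ∉ K → cj x θ g = 0 := by
    intro x hx θ hθ g hg
    refine (hS1 Γ K θ hθ).1 _ fun hK => hg ?_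
    have := hn x⁻¹ (X.inv_mem hx) _ hK
    have e : x⁻¹ * (x * g * x⁻¹) * x⁻¹⁻¹ = g := by group
    rwa [e] at this
  have hext : ∀ (N : Subgroup Γ) (θ : Γ → ℂ), (∀ g, g ∉ N → θ g = 0) →
      ext0 N (fun k : N => θ k) = θ := by
    intro N θ hθ
    funext g
    by_cases hg : g ∈ N
    · rw [ext0_mem hg]
    · rw [ext0_not hg, hθ g hg]
  -- translation
  have hirr : ∀ (N : Subgroup Γ), ∀ θ ∈ IrrS N, (fun k : N => θ k) ∈ AMx.Irr N :=
    fun N θ hθ => (hS1 Γ N θ hθ).2.2.2.2.2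
  have hov : ∀ (χ : Γ → ℂ) (θ : Γ → ℂ), (∀ g, g ∉ K → θ g = 0) →
      (Over χ θ ↔ F.Ov (fun x : X => χ x) (fun k : K => θ k)) := by
    intro χ θ hθ
    unfold Over AMq.Cy.Ov
    rw [sum_sub K (fun g => χ g * conj (θ g)) (fun g hg => by simp [hθ g hg])]
    have e : ∑ k : K, χ k * conj (θ k) = ∑ k : K, χ (F.io k) * conj (θ k) := by
      refine Finset.sum_congr rfl fun k _ => ?_
      rw [hio]
    rw [e]
  have hinv : ∀ θ ∈ IrrS K, (cj t θ = θ ↔ F.Inv (fun k : K => θ k)) := by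
    intro θ hθ
    constructor
    · intro he k
      show θ (F.sg k : Γ) = θ k
      rw [hsg1]
      exact congrFun he k
    · intro he
      funext g
      by_cases hg : g ∈ K
      · have := he ⟨g, hg⟩
        change θ (F.sg ⟨g, hg⟩ : Γ) = θ g at this
        rw [hsg1] at this
        exact this
      · rw [hsupp t h.mem θ hθ g hg, (hS1 Γ K θ hθ).1 g hg]
  have hcjc : ∀ θ ∈ IrrS K, ∀ θ' : Γ → ℂ, (∀ g, g ∉ K → θ' g = 0) → ∀ c : ℕ,
      (∀ k : K, θ' k = θ ((F.sg ^ c) k)) → θ' = cj (t ^ c) θ := by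
    intro θ hθ θ' hθ' c hk
    funext g
    by_cases hg : g ∈ K
    · have := hk ⟨g, hg⟩
      rw [hsg] at this
      exact this
    · rw [hθ' g hg, hsupp _ (hmemt c) θ hθ g hg]
  -- part (d)
  have hd : ∀ χ ∈ IrrS X, ∀ θ : Γ → ℂ, Over χ θ → ∀ x ∈ X, Over χ (cj x θ) := by
    intro χ hχ θ ho x hx
    unfold Over at ho ⊢
    rw [← Equiv.sum_comp (MulAut.conj x).toEquiv] at ho
    convert ho using 1
    refine Finset.sum_congr rfl fun g _ => ?_
    show χ g * conj (cj x θ g) = χ (x * g * x⁻¹) * conj (θ (x * g * x⁻¹))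
    rw [(hS1 Γ X χ hχ).2.1 x hx g]
    rfl
  refine ⟨?_, ?_, ?_, hd⟩
  · -- invariant characters
    intro θ hθ hθt
    have hpow : ∀ c : ℕ, cj (t ^ c) θ = θ := by
      intro c
      induction c with
      | zero => funext g; simp [cj]
      | succ c ih => rw [pow_succ, cj_mul, ih, hθt]
    have hI := (hinv θ hθ).1 hθt
    obtain ⟨hcard, hres⟩ := hq3 _ (hirr K θ hθ) hI
    refine ⟨?_, ?_, ?_⟩
    · intro x hx
      obtain ⟨c, -, k, hk, rfl⟩ := hrep x hx
      rw [cj_mul, hpow]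
      funext g
      exact (hS1 Γ K θ hθ).2.1 k hk g
    · have himg : {χ | χ ∈ IrrS X ∧ Over χ θ} =
          ext0 X '' {χ | χ ∈ AMx.Irr X ∧ F.Ov χ (fun k : K => θ k)} := by
        ext χ
        constructor
        · rintro ⟨hχ, ho⟩
          refine ⟨fun x : X => χ x, ⟨hirr X χ hχ, (hov χ θ (hS1 Γ K θ hθ).1).1 ho⟩,
            hext X χ (hS1 Γ X χ hχ).1⟩
        · rintro ⟨ψ, ⟨hψ, ho⟩, rfl⟩
          refine ⟨⟨ψ, hψ, rfl⟩, (hov _ θ (hS1 Γ K θ hθ).1).2 ?_⟩
          have e : (fun x : X => ext0 X ψ x) = ψ := funext fun x => ext0_coe x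
          rw [e]
          exact ho
      rw [himg, Set.ncard_image_of_injective _ ext0_inj, hcard]
    · intro χ hχ ho
      have ho' := (hov χ θ (hS1 Γ K θ hθ).1).1 ho
      refine ⟨?_, ?_⟩
      · intro k hk
        have := hres _ (hirr X χ hχ) ho' ⟨k, hk⟩
        rwa [hio] at this
      · intro θ' hθ' ho2
        obtain ⟨-, -, h43, -⟩ := hq4 _ (hirr X χ hχ)
        obtain ⟨c, -, hc⟩ := h43 _ (hirr K θ hθ) _ (hirr K θ' hθ') ho'
          ((hov χ θ' (hS1 Γ K θ' hθ').1).1 ho2)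
        rw [hcjc θ hθ θ' (hS1 Γ K θ' hθ').1 c hc, hpow]
  · -- characters which are not invariant
    intro θ hθ hθt
    have hI : ¬ F.Inv (fun k : K => θ k) := fun hI => hθt ((hinv θ hθ).2 hI)
    obtain ⟨h21, h22, h23⟩ := hq2 _ (hirr K θ hθ) hI
    have e : (fun x : X => ext0 X (F.ind fun k : K => θ k) x) = F.ind fun k : K => θ k :=
      funext fun x => ext0_coe x
    refine ⟨ext0 X (F.ind fun k : K => θ k), ⟨_, h21, rfl⟩, ?_, ?_, ?_, ?_⟩
    · rw [hov _ θ (hS1 Γ K θ hθ).1, e]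
      exact h22
    · have h1 : ext0 X (F.ind fun k : K => θ k) 1 = F.ind (fun k : K => θ k) 1 :=
        ext0_mem X.one_mem
      rw [h1, h16]
      rfl
    · intro χ' hχ' ho
      have := h23 _ (hirr X χ' hχ') ((hov χ' θ (hS1 Γ K θ hθ).1).1 ho)
      rw [← this, hext X χ' (hS1 Γ X χ' hχ').1]
    · intro c c' hc hc' he
      refine h14 _ (hirr K θ hθ) hI c c' hc hc' fun k => ?_
      show θ ((F.sg ^ c) k : Γ) = θ ((F.sg ^ c') k : Γ)
      rw [hsg, hsg]
      exact congrFun he k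
  · -- constituents are conjugate
    intro χ hχ θ hθ θ' hθ' ho ho'
    obtain ⟨-, -, h43, -⟩ := hq4 _ (hirr X χ hχ)
    obtain ⟨c, hc, he⟩ := h43 _ (hirr K θ hθ) _ (hirr K θ' hθ')
      ((hov χ θ (hS1 Γ K θ hθ).1).1 ho) ((hov χ θ' (hS1 Γ K θ' hθ').1).1 ho')
    exact ⟨c, hc, hcjc θ hθ θ' (hS1 Γ K θ' hθ').1 c he⟩

end Pool.Agent.H74.EA.CL
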